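import Pool.Agent.K1H14.SD.Stm

/-!
# The top level of the even Clifford algebra
-/

namespace Pool.Agent.K1H96.SD

open Pool.Agent.K1H14.KS Pool.Agent.K1H14.SD CliffordAlgebra

open scoped symmDiff

universe u

lemma mono_perm {R : Type*} [Ring R] [Algebra ℂ R] {I : Type*} [DecidableEq I] {E : I → R}
    (hE : Anti E) {l l' : List I} (h : l.Perm l') :
    ∃ ε : ℂ, (ε = 1 ∨ ε = -1) ∧ mono E l = ε • mono E l' := by
  induction h with
  | nil => exact ⟨1, Or.inl rfl, by simp⟩
  | cons a _ ih =>
    obtain ⟨ε, hε, h⟩ := ih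
    exact ⟨ε, hε, by rw [mono_cons, mono_cons, h, mul_smul_comm]⟩
  | swap a c l =>
    by_cases hac : a = c
    · subst hac; exact ⟨1, Or.inl rfl, by simp⟩
    · refine ⟨-1, Or.inr rfl, ?_⟩
      rw [mono_cons, mono_cons, mono_cons, mono_cons, ← mul_assoc, ← mul_assoc,
        hE.anti c a (fun e => hac e.symm)]
      simp
  | trans _ _ ih1 ih2 =>
    obtain ⟨ε, hε, h⟩ := ih1
    obtain ⟨ε', hε', h'⟩ := ih2
    refine ⟨ε * ε', ?_, by rw [h, h', smul_smul]⟩
    rcases hε with rfl | rfl <;> rcases hε' with rfl | rfl <;> simp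

section

variable {T : Type u} [AddCommGroup T] [Module ℂ T] {Q : QuadraticForm ℂ T} {d : ℕ}
  {b : Module.Basis (Fin d) ℂ T}

/-- the product of all vectors of the basis -/
noncomputable def om (Q : QuadraticForm ℂ T) (b : Module.Basis (Fin d) ℂ T) : CliffordAlgebra Q :=
  mono (fun i => ι Q (b i)) ((Finset.univ : Finset (Fin d)).sort (· ≤ ·))

/-- its inverse -/
noncomputable def om' (Q : QuadraticForm ℂ T) (b : Module.Basis (Fin d) ℂ T) : CliffordAlgebra Q :=
  mono (fun i => ι Q (b i)) ((Finset.univ : Finset (Fin d)).sort (· ≤ ·)).reverse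

lemma om_mul_om' (hb : ONB Q b) : om Q b * om' Q b = 1 := mono_mul_reverse hb.anti _

lemma om'_eq (hb : ONB Q b) : ∃ ε : ℂ, om' Q b = ε • om Q b := by
  obtain ⟨ε, -, h⟩ := mono_perm hb.anti
    (List.reverse_perm ((Finset.univ : Finset (Fin d)).sort (· ≤ ·)))
  exact ⟨ε, h⟩

lemma sg_univ (hd : Odd d) (j : Fin d) :
    sg j ((Finset.univ : Finset (Fin d)).sort (· ≤ ·)) = 1 := by
  have h1 := List.prod_toFinset (fun a : Fin d => if a = j then (1 : ℂ) else -1)
    (Finset.sort_nodup (Finset.univ : Finset (Fin d)) (· ≤ ·))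
  rw [sg, ← h1, Finset.sort_toFinset, ← Finset.mul_prod_erase _ _ (Finset.mem_univ j), if_pos rfl,
    one_mul, Finset.prod_congr rfl (g := fun _ => (-1 : ℂ)) (fun a ha => by
      rw [if_neg (Finset.ne_of_mem_erase ha)]), Finset.prod_const,
    Finset.card_erase_of_mem (Finset.mem_univ j), Finset.card_univ, Fintype.card_fin]
  apply Even.neg_one_pow
  obtain ⟨k, hk⟩ := hd
  exact ⟨k, by omega⟩

lemma om_comm_ι (hd : Odd d) (hb : ONB Q b) (v : T) : om Q b * ι Q v = ι Q v * om Q b := by
  have hv : v ∈ Submodule.span ℂ (Set.range b) := by rw [b.span_eq]; trivial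
  induction hv using Submodule.span_induction with
  | mem v hv =>
    obtain ⟨i, rfl⟩ := hv
    have := mono_mul_E hb.anti i ((Finset.univ : Finset (Fin d)).sort (· ≤ ·))
    rw [sg_univ hd, one_smul] at this
    exact this
  | zero => simp
  | add v w _ _ hv hw => rw [map_add, mul_add, add_mul, hv, hw]
  | smul c v _ hv => rw [map_smul, mul_smul_comm, smul_mul_assoc, hv]

lemma om_comm (hd : Odd d) (hb : ONB Q b) (x : CliffordAlgebra Q) : om Q b * x = x * om Q b := by
  induction x using CliffordAlgebra.induction with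
  | algebraMap r => exact (Algebra.commutes r _).symm
  | ι v => exact om_comm_ι hd hb v
  | mul x y hx hy => rw [← mul_assoc, hx, mul_assoc, hy, mul_assoc]
  | add x y hx hy => rw [mul_add, add_mul, hx, hy]

/-- the monomial of the complement of `i` -/
lemma MM_compl (hd : Odd d) (hb : ONB Q b) (i : Fin d) : ∃ ε : ℂ, (ε = 1 ∨ ε = -1) ∧
    ((MM (Q := Q) b (Finset.univ.erase i) : W Q) : CliffordAlgebra Q)
      = ε • (ι Q (b i) * om Q b) := by
  have hcard : Even (Finset.univ.erase i : Finset (Fin d)).card := by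
    rw [Finset.card_erase_of_mem (Finset.mem_univ i), Finset.card_univ, Fintype.card_fin]
    obtain ⟨k, hk⟩ := hd
    exact ⟨k, by omega⟩
  have h1 : ((MM (Q := Q) b (Finset.univ.erase i) : W Q) : CliffordAlgebra Q)
      = mono (fun i => ι Q (b i)) ((Finset.univ.erase i : Finset (Fin d)).sort (· ≤ ·)) := by
    rw [MM, dif_pos hcard]
  have hp : (i :: ((Finset.univ.erase i : Finset (Fin d)).sort (· ≤ ·))).Perm
      ((Finset.univ : Finset (Fin d)).sort (· ≤ ·)) := by
    rw [← Multiset.coe_eq_coe, ← Multiset.cons_coe, Finset.sort_eq, Finset.sort_eq,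
      Finset.erase_val, Multiset.cons_erase]
    exact Finset.mem_univ i
  obtain ⟨ε, hε, h2⟩ := mono_perm hb.anti hp
  have h3 : ι Q (b i) * ι Q (b i) = 1 := hb.anti.sq i
  rw [mono_cons] at h2
  refine ⟨ε, hε, ?_⟩
  rw [h1]
  have h4 := congrArg (fun z => ι Q (b i) * z) h2
  simp only [← mul_assoc] at h4
  rw [h3, one_mul, mul_smul_comm] at h4
  exact h4

lemma lev_of (hd : Odd d) (hb : ONB Q b) (v : T) : ∃ w ∈ Lev (MM (Q := Q) b) (d - 1),
    (w : CliffordAlgebra Q) = ι Q v * om Q b := by
  have hv : v ∈ Submodule.span ℂ (Set.range b) := by rw [b.span_eq]; trivial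
  induction hv using Submodule.span_induction with
  | mem v hv =>
    obtain ⟨i, rfl⟩ := hv
    obtain ⟨ε, hε, h⟩ := MM_compl hd hb i
    refine ⟨ε • MM (Q := Q) b (Finset.univ.erase i), Submodule.smul_mem _ _
      (Submodule.subset_span ⟨_, ?_, rfl⟩), ?_⟩
    · rw [Finset.card_erase_of_mem (Finset.mem_univ i), Finset.card_univ, Fintype.card_fin]
    · show ε • ((MM (Q := Q) b (Finset.univ.erase i) : W Q) : CliffordAlgebra Q) = _
      rw [h, smul_smul]
      rcases hε with rfl | rfl <;> simp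
  | zero => exact ⟨0, Submodule.zero_mem _, by simp⟩
  | add v w _ _ hv hw =>
    obtain ⟨x, hx, hx'⟩ := hv
    obtain ⟨y, hy, hy'⟩ := hw
    refine ⟨x + y, Submodule.add_mem _ hx hy, ?_⟩
    show (x : CliffordAlgebra Q) + (y : CliffordAlgebra Q) = _
    rw [hx', hy', map_add, add_mul]
  | smul c v _ hv =>
    obtain ⟨x, hx, hx'⟩ := hv
    refine ⟨c • x, Submodule.smul_mem _ _ hx, ?_⟩
    show c • (x : CliffordAlgebra Q) = _
    rw [hx', map_smul, smul_mul_assoc]

lemma of_lev (hd : Odd d) (hb : ONB Q b) (w : W Q) (hw : w ∈ Lev (MM (Q := Q) b) (d - 1)) :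
    ∃ v : T, (w : CliffordAlgebra Q) = ι Q v * om Q b := by
  unfold Lev at hw
  induction hw using Submodule.span_induction with
  | mem w hw =>
    obtain ⟨K, hK, rfl⟩ := hw
    obtain ⟨i, hi⟩ : ∃ i, i ∉ K := by
      by_contra hcon
      push Not at hcon
      have : K = Finset.univ := Finset.eq_univ_iff_forall.mpr hcon
      rw [this, Finset.card_univ, Fintype.card_fin] at hK
      have := hd.pos
      omega
    have hKi : K = Finset.univ.erase i := by
      apply Finset.eq_of_subset_of_card_le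
      · intro j hj
        rw [Finset.mem_erase]
        exact ⟨fun e => hi (e ▸ hj), Finset.mem_univ _⟩
      · rw [Finset.card_erase_of_mem (Finset.mem_univ i), Finset.card_univ, Fintype.card_fin, hK]
    obtain ⟨ε, -, h⟩ := MM_compl hd hb i
    refine ⟨ε • b i, ?_⟩
    rw [hKi, h, map_smul, smul_mul_assoc]
  | zero => exact ⟨0, by simp⟩
  | add x y _ _ hx hy =>
    obtain ⟨v, hv⟩ := hx
    obtain ⟨w, hw⟩ := hy
    refine ⟨v + w, ?_⟩
    show (x : CliffordAlgebra Q) + (y : CliffordAlgebra Q) = _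
    rw [hv, hw, map_add, add_mul]
  | smul c x _ hx =>
    obtain ⟨v, hv⟩ := hx
    refine ⟨c • v, ?_⟩
    show c • (x : CliffordAlgebra Q) = _
    rw [hv, map_smul, smul_mul_assoc]

lemma om_mem (hd : Odd d) : om Q b ∈ evenOdd Q 1 := by
  have h := mono_mem (Q := Q) b ((Finset.univ : Finset (Fin d)).sort (· ≤ ·))
  rw [Finset.length_sort, Finset.card_univ, Fintype.card_fin] at h
  have h2 : ((d : ℕ) : ZMod 2) = 1 := (ZMod.natCast_eq_one_iff_odd).mpr hd
  rw [h2] at h
  exact h

end

theorem t_LNK3 : S_LNK3.{u} := by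
  intro T _ _ Q d b hd hb
  constructor
  · intro y hy hL
    have hyc : reverse (y : CliffordAlgebra Q) * (y : CliffordAlgebra Q) = 1 :=
      congrArg Subtype.val hy
    have hv : ∀ i, ∃ v : T, (y : CliffordAlgebra Q) * ι Q (b i) * reverse (y : CliffordAlgebra Q)
        = ι Q v := by
      intro i
      obtain ⟨w, hw, hw'⟩ := lev_of hd hb (b i)
      obtain ⟨v, hv⟩ := of_lev hd hb _ (hL w hw)
      refine ⟨v, ?_⟩
      have h1 : (y : CliffordAlgebra Q) * (w : CliffordAlgebra Q)
          * reverse (y : CliffordAlgebra Q) = ι Q v * om Q b := hv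
      rw [hw'] at h1
      have h2 : (y : CliffordAlgebra Q) * ι Q (b i) * reverse (y : CliffordAlgebra Q) * om Q b
          = ι Q v * om Q b := by
        rw [← h1, mul_assoc _ (reverse (y : CliffordAlgebra Q)) (om Q b), ← om_comm hd hb (reverse (y : CliffordAlgebra Q))]
        simp only [mul_assoc]
      have h3 := congrArg (fun z => z * om' Q b) h2
      simpa only [mul_assoc, om_mul_om' hb, mul_one] using h3
    choose v hv using hv
    refine ⟨b.constr ℂ v, hyc, ?_⟩
    have h : (LinearMap.mulRight ℂ (reverse (y : CliffordAlgebra Q))) ∘ₗ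
        (LinearMap.mulLeft ℂ (y : CliffordAlgebra Q)) ∘ₗ ι Q = ι Q ∘ₗ b.constr ℂ v := by
      refine b.ext fun i => ?_
      simp only [LinearMap.comp_apply, LinearMap.mulRight_apply, LinearMap.mulLeft_apply,
        Module.Basis.constr_basis]
      exact hv i
    intro u
    exact LinearMap.congr_fun h u
  · intro x v z hz hx
    have htop : z ∈ evenOdd Q 0 ⊔ evenOdd Q 1 := by
      rw [(evenOdd_isCompl (Q := Q)).sup_eq_top]; trivial
    obtain ⟨z0, h0, z1, h1, rfl⟩ := Submodule.mem_sup.mp htop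
    have hinv : ∀ t, (z0 - z1) * ι Q t = ι Q t * (z0 - z1) := by
      intro t
      have := congrArg involute (hz t)
      rw [map_mul, map_mul, map_add, involute_eq_of_mem_even h0, involute_eq_of_mem_odd h1,
        involute_ι, mul_neg, neg_mul, neg_inj, ← sub_eq_add_neg] at this
      exact this
    have hz0 : ∀ t, z0 * ι Q t = ι Q t * z0 := by
      intro t
      have e1 := hz t
      have e2 := hinv t
      have e3 : (2 : ℂ) • (z0 * ι Q t) = (2 : ℂ) • (ι Q t * z0) := by
        have := congrArg₂ (· + ·) e1 e2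
        rw [two_smul, two_smul]
        calc z0 * ι Q t + z0 * ι Q t = (z0 + z1) * ι Q t + (z0 - z1) * ι Q t := by noncomm_ring
          _ = _ := this
          _ = _ := by noncomm_ring
      exact smul_right_injective _ (two_ne_zero' ℂ) e3
    have hz1 : ∀ t, z1 * ι Q t = ι Q t * z1 := by
      intro t
      have e1 := hz t
      rw [add_mul, mul_add, hz0 t] at e1
      exact add_left_cancel e1
    have hI : Odd (Fintype.card (Fin d)) := by rw [Fintype.card_fin]; exact hd
    obtain ⟨c0, hc0⟩ := scalar_of_commute hI hb.anti z0 (even_le b z0 h0) (by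
      intro i j _
      rw [mul_assoc, ← hz0, ← mul_assoc, ← hz0, mul_assoc])
    have hz1om : z1 * om Q b ∈ evenOdd Q 0 := by
      have := SetLike.mul_mem_graded h1 (om_mem (b := b) hd)
      rwa [show (1 : ZMod 2) + 1 = 0 from rfl] at this
    obtain ⟨c1, hc1⟩ := scalar_of_commute hI hb.anti (z1 * om Q b) (even_le b _ hz1om) (by
      intro i j _
      have : ∀ t, z1 * om Q b * ι Q t = ι Q t * (z1 * om Q b) := by
        intro t
        rw [mul_assoc, om_comm hd hb, ← mul_assoc, hz1, mul_assoc]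
      rw [mul_assoc, ← this, ← mul_assoc, ← this, mul_assoc])
    obtain ⟨ε, hε⟩ := om'_eq hb
    have hz1' : z1 = (c1 * ε) • om Q b := by
      calc z1 = z1 * om Q b * om' Q b := by rw [mul_assoc, om_mul_om' hb, mul_one]
        _ = _ := by rw [hc1, hε, smul_mul_assoc, one_mul, smul_smul]
    have hx2 : (x : CliffordAlgebra Q) = c0 • ι Q v + (c1 * ε) • (ι Q v * om Q b) := by
      rw [hx, hc0, hz1', mul_add, mul_smul_comm, mul_one, mul_smul_comm]
    obtain ⟨w, hw, hw'⟩ := lev_of hd hb v
    have hzero : c0 • ι Q v = 0 := by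
      have e1 : c0 • ι Q v ∈ evenOdd Q 1 := Submodule.smul_mem _ _ (ι_mem_evenOdd_one Q v)
      have e2 : c0 • ι Q v ∈ evenOdd Q 0 := by
        have : c0 • ι Q v = (x : CliffordAlgebra Q) - (c1 * ε) • (w : CliffordAlgebra Q) := by
          rw [hx2, hw']; abel
        rw [this]
        exact Submodule.sub_mem _ x.2 (Submodule.smul_mem _ _ w.2)
      have e3 := (evenOdd_isCompl (Q := Q)).inf_eq_bot
      have : c0 • ι Q v ∈ evenOdd Q 0 ⊓ evenOdd Q 1 := ⟨e2, e1⟩
      rw [e3, Submodule.mem_bot] at this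
      exact this
    have hxw : x = (c1 * ε) • w := by
      apply Subtype.ext
      show (x : CliffordAlgebra Q) = (c1 * ε) • (w : CliffordAlgebra Q)
      rw [hx2, hzero, zero_add, hw']
    rw [hxw]
    exact Submodule.smul_mem _ _ hw

end Pool.Agent.K1H96.SD
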